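import Pool.Agent.Helper83.CB.Defs4

/-!
# (4.2) characteristic forms of Lipschitz connections are bounded and weakly closed
-/

open Filter Topology MeasureTheory

namespace Pool.Agent.Helper83.CB

section WC

variable {ι : Type} [Fintype ι] [DecidableEq ι] {n : ℕ}

lemma WC_pd_le {W : Type*} [NormedAddCommGroup W] [NormedSpace ℝ W] {C : NNReal}
    {f : (ι → ℝ) → W} (hf : LipschitzWith C f) (x : ι → ℝ) (μ : ι) : ‖pd f x μ‖ ≤ C := by
  unfold pd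
  calc ‖fderiv ℝ f x (Pi.single μ 1)‖ ≤ ‖fderiv ℝ f x‖ * ‖(Pi.single μ 1 : ι → ℝ)‖ :=
        ContinuousLinearMap.le_opNorm _ _
    _ ≤ C * 1 := by
        refine mul_le_mul (norm_fderiv_le_of_lipschitz ℝ hf) ?_ (norm_nonneg _) C.2
        refine (pi_norm_le_iff_of_nonneg zero_le_one).2 fun i => ?_
        by_cases h : i = μ
        · subst h; simp
        · simp [h]
    _ = C := mul_one _

/-- the curvature as a continuous function of the values and first derivatives -/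
noncomputable def WC_F (Q0 Q1 : M n →ₗ[ℝ] M n)
    (k : E (n + 1) →L[ℂ] E n) (dk : ι → E (n + 1) →L[ℂ] E n)
    (dl : ι → E n →L[ℂ] E (n + 1)) (g : ℝ) (dg : ι → ℝ) (μ ν : ι) : M n :=
  (dg μ • Q1 (k.comp (dl ν)) - dg ν • Q1 (k.comp (dl μ))) +
  (Q0 ((dk μ).comp (dl ν) - (dk ν).comp (dl μ)) +
    g • Q1 ((dk μ).comp (dl ν) - (dk ν).comp (dl μ))) +
  ((Q0 (k.comp (dl μ)) + g • Q1 (k.comp (dl μ))) * (Q0 (k.comp (dl ν)) + g • Q1 (k.comp (dl ν))) -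
    (Q0 (k.comp (dl ν)) + g • Q1 (k.comp (dl ν))) * (Q0 (k.comp (dl μ)) + g • Q1 (k.comp (dl μ))))

lemma WC_Fcon (K : (ι → ℝ) → E (n + 1) →L[ℂ] E n) (L : (ι → ℝ) → E n →L[ℂ] E (n + 1))
    (g : (ι → ℝ) → ℝ) (Q0 Q1 : M n →ₗ[ℝ] M n) (x : ι → ℝ) :
    Fcon K L g Q0 Q1 x = WC_F Q0 Q1 (K x) (pd K x) (pd L x) (g x) (pd g x) := rfl

lemma WC_F_cont (Q0 Q1 : M n →ₗ[ℝ] M n) :
    Continuous (fun p : (E (n + 1) →L[ℂ] E n) × (ι → E (n + 1) →L[ℂ] E n) ×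
      (ι → E n →L[ℂ] E (n + 1)) × ℝ × (ι → ℝ) =>
      WC_F Q0 Q1 p.1 p.2.1 p.2.2.1 p.2.2.2.1 p.2.2.2.2) := by
  have h0 : Continuous Q0 := LinearMap.continuous_of_finiteDimensional Q0
  have h1 : Continuous Q1 := LinearMap.continuous_of_finiteDimensional Q1
  refine continuous_pi fun μ => continuous_pi fun ν => ?_
  unfold WC_F
  fun_prop

lemma WC_PF_cont {q : ℕ} (Λ : Ext ι) (c : Fin q → (M n →ₗ[ℝ] ℝ))
    (P : MvPolynomial (Fin q) ℝ) : Continuous (fun F : ι → ι → M n => PF Λ c P F) := by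
  have h2 : ∀ i : Fin q, Continuous (fun F : ι → ι → M n => Λ.two fun μ ν => c i (F μ ν)) := by
    intro i
    unfold Ext.two
    have h0 : Continuous (c i) := LinearMap.continuous_of_finiteDimensional (c i)
    have h1 : Continuous (fun F : ι → ι → M n =>
        ∑ μ, ∑ ν, c i (F μ ν) • (Λ.e μ * Λ.e ν)) := by
      refine continuous_finsetSum _ fun μ _ => continuous_finsetSum _ fun ν _ => ?_
      exact Continuous.smul (h0.comp (by fun_prop)) continuous_const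
    exact (continuous_const_smul (1 / 2 : ℝ)).comp h1
  have h3 : ∀ s : Fin q →₀ ℕ, Continuous (fun F : ι → ι → M n =>
      ((List.finRange q).map fun i => (Λ.two fun μ ν => c i (F μ ν)) ^ s i).prod) := by
    intro s
    exact continuous_list_prod _ fun i _ => (h2 i).pow _
  unfold PF evc
  refine continuous_finsetSum _ fun s _ => ?_
  have h4 := (continuous_const_smul (MvPolynomial.coeff s P) :
    Continuous fun y : Λ.X →L[ℝ] Λ.X => MvPolynomial.coeff s P • y).comp (h3 s)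
  simp only [List.ofFn_eq_map]
  exact h4

lemma WC_lip_bdd {W : Type*} [NormedAddCommGroup W] {C : NNReal}
    {F : ℕ → (ι → ℝ) → W} {f : (ι → ℝ) → W} (hF : ∀ k, LipschitzWith C (F k))
    (h : ∀ x, Tendsto (fun k => F k x) atTop (𝓝 (f x))) (R : ℝ) :
    ∃ B : ℝ, ∀ k x, ‖x‖ ≤ R → ‖F k x‖ ≤ B := by
  obtain ⟨B0, hB0⟩ := (h 0).norm.bddAbove_range
  refine ⟨B0 + C * R, fun k x hx => ?_⟩
  have h1 : ‖F k x - F k 0‖ ≤ C * ‖x‖ := by
    have := (hF k).norm_sub_le x 0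
    simpa using this
  have h2 : ‖F k 0‖ ≤ B0 := hB0 ⟨k, rfl⟩
  calc ‖F k x‖ = ‖(F k x - F k 0) + F k 0‖ := by rw [sub_add_cancel]
    _ ≤ ‖F k x - F k 0‖ + ‖F k 0‖ := norm_add_le _ _
    _ ≤ C * R + B0 := add_le_add (h1.trans (mul_le_mul_of_nonneg_left hx C.2)) h2
    _ = B0 + C * R := add_comm _ _

/-- uniform bound for the curvature -/
lemma WC_F_bdd (Q0 Q1 : M n →ₗ[ℝ] M n) (R : ℝ) :
    ∃ B : ℝ, ∀ (k : E (n + 1) →L[ℂ] E n) (dk : ι → E (n + 1) →L[ℂ] E n)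
      (dl : ι → E n →L[ℂ] E (n + 1)) (g : ℝ) (dg : ι → ℝ),
      ‖k‖ ≤ R → (∀ μ, ‖dk μ‖ ≤ R) → (∀ μ, ‖dl μ‖ ≤ R) → |g| ≤ R → (∀ μ, |dg μ| ≤ R) →
      ‖WC_F Q0 Q1 k dk dl g dg‖ ≤ B := by
  by_cases hR : 0 ≤ R
  swap
  · exact ⟨0, fun k dk dl g dg hk _ _ _ _ => absurd ((norm_nonneg _).trans hk) hR⟩
  have : FiniteDimensional ℝ (E (n + 1) →L[ℂ] E n) := inferInstance
  have hc : IsCompact (Metric.closedBall (0 : (E (n + 1) →L[ℂ] E n) ×
      (ι → E (n + 1) →L[ℂ] E n) × (ι → E n →L[ℂ] E (n + 1)) × ℝ × (ι → ℝ)) R) := by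
    have : ProperSpace ((E (n + 1) →L[ℂ] E n) ×
      (ι → E (n + 1) →L[ℂ] E n) × (ι → E n →L[ℂ] E (n + 1)) × ℝ × (ι → ℝ)) :=
      FiniteDimensional.proper ℝ _
    exact isCompact_closedBall _ _
  obtain ⟨B, hB⟩ := hc.exists_bound_of_continuousOn (WC_F_cont (ι := ι) Q0 Q1).continuousOn
  refine ⟨B, fun k dk dl g dg h1 h2 h3 h4 h5 => hB (k, dk, dl, g, dg) ?_⟩
  rw [mem_closedBall_zero_iff]
  simp only [Prod.norm_def, sup_le_iff]
  exact ⟨h1, (pi_norm_le_iff_of_nonneg hR).2 h2, (pi_norm_le_iff_of_nonneg hR).2 h3, h4,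
    (pi_norm_le_iff_of_nonneg hR).2 h5⟩

lemma WC_PF_bdd {q : ℕ} (Λ : Ext ι) (c : Fin q → (M n →ₗ[ℝ] ℝ))
    (P : MvPolynomial (Fin q) ℝ) (R : ℝ) :
    ∃ B : ℝ, ∀ F : ι → ι → M n, ‖F‖ ≤ R → ‖PF Λ c P F‖ ≤ B := by
  have : ProperSpace (ι → ι → M n) := FiniteDimensional.proper ℝ _
  obtain ⟨B, hB⟩ := (isCompact_closedBall (0 : ι → ι → M n) R).exists_bound_of_continuousOn
    (WC_PF_cont Λ c P).continuousOn
  exact ⟨B, fun F hF => hB F (mem_closedBall_zero_iff.2 hF)⟩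

lemma WC_pd_tendsto {W : Type*} [NormedAddCommGroup W] [NormedSpace ℝ W]
    {F : ℕ → (ι → ℝ) → W} {f : (ι → ℝ) → W} {x : ι → ℝ}
    (h : Tendsto (fun k => fderiv ℝ (F k) x) atTop (𝓝 (fderiv ℝ f x))) :
    Tendsto (fun k => pd (F k) x) atTop (𝓝 (pd f x)) := by
  refine tendsto_pi_nhds.2 fun μ => ?_
  unfold pd
  exact ((ContinuousLinearMap.apply ℝ W (Pi.single μ 1 : ι → ℝ)).continuous.tendsto _).comp h

theorem st_WC (moll : ST_MOLL) (bia : ST_BIA) (smc : ST_SMC) (fsm : ST_FSM) : ST_WC := by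
  intro ι _ _ Λ n q c P f hbr hinv K L g Q0 Q1 hQ0 hQ1 ⟨CK, hK⟩ ⟨CL, hL⟩ ⟨Cg, hg⟩ ⟨BK, hBK⟩
    ⟨Bg, hBg⟩
  have hbd : ∃ C : ℝ, ∀ x, ‖Fcon K L g Q0 Q1 x‖ ≤ C := by
    obtain ⟨B, hB⟩ := WC_F_bdd (ι := ι) Q0 Q1 (max BK (max Bg (max CK (max CL Cg))))
    refine ⟨B, fun x => ?_⟩
    rw [WC_Fcon]
    refine hB _ _ _ _ _ ((hBK x).trans (le_max_left _ _)) (fun μ => ?_) (fun μ => ?_) ?_
      (fun μ => ?_)
    · exact (WC_pd_le hK x μ).trans ((le_max_left _ _).trans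
        ((le_max_right _ _).trans (le_max_right _ _)))
    · exact (WC_pd_le hL x μ).trans ((le_max_left _ _).trans ((le_max_right _ _).trans
        ((le_max_right _ _).trans (le_max_right _ _))))
    · exact (hBg x).trans ((le_max_left _ _).trans (le_max_right _ _))
    · exact (WC_pd_le hg x μ).trans ((le_max_right _ _).trans ((le_max_right _ _).trans
        ((le_max_right _ _).trans (le_max_right _ _))))
  have hmem : ∀ (K : (ι → ℝ) → E (n + 1) →L[ℂ] E n) (L : (ι → ℝ) → E n →L[ℂ] E (n + 1))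
      (g : (ι → ℝ) → ℝ) (x : ι → ℝ) (μ ν : ι), Fcon K L g Q0 Q1 x μ ν ∈ f := by
    intro K L g x μ ν
    have hA : ∀ μ, Acon K L g Q0 Q1 x μ ∈ f := fun μ =>
      f.add_mem (hQ0 _) (f.smul_mem _ (hQ1 _))
    refine f.add_mem (f.add_mem (f.sub_mem (f.smul_mem _ (hQ1 _)) (f.smul_mem _ (hQ1 _)))
      (f.add_mem (hQ0 _) (f.smul_mem _ (hQ1 _)))) (hbr _ (hA μ) _ (hA ν))
  obtain ⟨CF, hCF⟩ := hbd
  obtain ⟨Kk, hKs, hKl, hKt, hKd⟩ := moll ι _ K CK hK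
  obtain ⟨Lk, hLs, hLl, hLt, hLd⟩ := moll ι _ L CL hL
  obtain ⟨gk, hgs, hgl, hgt, hgd⟩ := moll ι _ g Cg hg
  -- the smooth forms
  have hsm : ∀ k, ContDiff ℝ (⊤ : ℕ∞) (fun x => PF Λ c P (Fcon (Kk k) (Lk k) (gk k) Q0 Q1 x)) ∧
      ∀ x, ∑ μ, Λ.e μ * pd (fun y => PF Λ c P (Fcon (Kk k) (Lk k) (gk k) Q0 Q1 y)) x μ = 0 := by
    intro k
    obtain ⟨h1, h2⟩ := fsm ι n (Kk k) (Lk k) (gk k) Q0 Q1 (hKs k) (hLs k) (hgs k)
    have h3 : (fun x => Fcon (Kk k) (Lk k) (gk k) Q0 Q1 x) =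
        fun x => Fsm (fun μ x => Acon (Kk k) (Lk k) (gk k) Q0 Q1 x μ) x := by
      funext x μ ν
      exact h2 x μ ν
    have h4 : (fun x => PF Λ c P (Fcon (Kk k) (Lk k) (gk k) Q0 Q1 x)) =
        fun x => PF Λ c P (Fsm (fun μ x => Acon (Kk k) (Lk k) (gk k) Q0 Q1 x μ) x) := by
      funext x
      exact congrArg (PF Λ c P) (congrFun h3 x)
    rw [h4]
    exact bia ι Λ n q c P f hbr hinv (fun μ x => Acon (Kk k) (Lk k) (gk k) Q0 Q1 x μ) h1
      (fun μ x => f.add_mem (hQ0 _) (f.smul_mem _ (hQ1 _)))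
  have hlimF : ∀ᵐ x, Tendsto (fun k => Fcon (Kk k) (Lk k) (gk k) Q0 Q1 x) atTop
      (𝓝 (Fcon K L g Q0 Q1 x)) := by
    filter_upwards [hKd, hLd, hgd] with x h1 h2 h3
    have h4 := ((hKt x).prodMk_nhds ((WC_pd_tendsto h1).prodMk_nhds ((WC_pd_tendsto h2).prodMk_nhds
      ((hgt x).prodMk_nhds (WC_pd_tendsto h3)))))
    have h5 := ((WC_F_cont (ι := ι) Q0 Q1).tendsto (K x, pd K x, pd L x, g x, pd g x)).comp h4
    simp only [WC_Fcon]
    exact h5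
  have hlim : ∀ᵐ x, Tendsto (fun k => PF Λ c P (Fcon (Kk k) (Lk k) (gk k) Q0 Q1 x)) atTop
      (𝓝 (PF Λ c P (Fcon K L g Q0 Q1 x))) := by
    filter_upwards [hlimF] with x hx
    exact ((WC_PF_cont Λ c P).tendsto _).comp hx
  obtain ⟨B, hB⟩ := WC_PF_bdd Λ c P CF
  have hmeas : AEStronglyMeasurable (fun x => PF Λ c P (Fcon K L g Q0 Q1 x)) volume :=
    aestronglyMeasurable_of_tendsto_ae atTop
      (fun k => (hsm k).1.continuous.aestronglyMeasurable) hlim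
  refine ⟨⟨CF, fun x μ ν => ?_⟩, hmem K L g, hmeas, ⟨B, fun x => hB _ (hCF x)⟩, ?_⟩
  · exact ((norm_le_pi_norm (Fcon K L g Q0 Q1 x μ) ν).trans
      (norm_le_pi_norm (Fcon K L g Q0 Q1 x) μ)).trans (hCF x)
  -- weak closedness
  intro h hh hcs
  have hz : ∀ k, ∑ μ, ∫ x, pd h x μ •
      (Λ.e μ * PF Λ c P (Fcon (Kk k) (Lk k) (gk k) Q0 Q1 x)) = 0 := fun k =>
    smc ι Λ _ ((hsm k).1.of_le (by exact_mod_cast le_top)) (hsm k).2 h hh hcs
  -- bound on the support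
  obtain ⟨R, hR⟩ : ∃ R : ℝ, ∀ x ∈ tsupport h, ‖x‖ ≤ R :=
    (isBounded_iff_forall_norm_le.1 hcs.isCompact.isBounded)
  obtain ⟨b1, hb1⟩ := WC_lip_bdd hKl hKt R
  obtain ⟨b2, hb2⟩ := WC_lip_bdd hgl hgt R
  obtain ⟨B1, hB1⟩ := WC_F_bdd (ι := ι) Q0 Q1 (max b1 (max b2 (max CK (max CL Cg))))
  obtain ⟨B2, hB2⟩ := WC_PF_bdd Λ c P B1
  have hbound : ∀ k, ∀ x ∈ tsupport h, ‖PF Λ c P (Fcon (Kk k) (Lk k) (gk k) Q0 Q1 x)‖ ≤ B2 := by
    intro k x hx
    refine hB2 _ ?_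
    rw [WC_Fcon]
    refine hB1 _ _ _ _ _ ((hb1 k x (hR x hx)).trans (le_max_left _ _)) (fun μ => ?_)
      (fun μ => ?_) ?_ (fun μ => ?_)
    · exact (WC_pd_le (hKl k) x μ).trans ((le_max_left _ _).trans
        ((le_max_right _ _).trans (le_max_right _ _)))
    · exact (WC_pd_le (hLl k) x μ).trans ((le_max_left _ _).trans ((le_max_right _ _).trans
        ((le_max_right _ _).trans (le_max_right _ _))))
    · exact (hb2 k x (hR x hx)).trans ((le_max_left _ _).trans (le_max_right _ _))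
    · exact (WC_pd_le (hgl k) x μ).trans ((le_max_right _ _).trans ((le_max_right _ _).trans
        ((le_max_right _ _).trans (le_max_right _ _))))
  have hpdc : ∀ μ, Continuous (fun x => pd h x μ) := fun μ => by
    unfold pd
    exact (hh.continuous_fderiv (by simp)).clm_apply continuous_const
  have hpds : ∀ μ, HasCompactSupport (fun x => pd h x μ) := fun μ => by
    unfold pd
    exact hcs.fderiv_apply ℝ _
  have hpd0 : ∀ μ, ∀ x, x ∉ tsupport h → pd h x μ = 0 := by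
    intro μ x hx
    unfold pd
    have : fderiv ℝ h x = 0 := by
      by_contra hne
      exact hx (support_fderiv_subset ℝ hne)
    rw [this]; rfl
  have hlimI : ∀ μ, Tendsto (fun k => ∫ x, pd h x μ •
      (Λ.e μ * PF Λ c P (Fcon (Kk k) (Lk k) (gk k) Q0 Q1 x))) atTop
      (𝓝 (∫ x, pd h x μ • (Λ.e μ * PF Λ c P (Fcon K L g Q0 Q1 x)))) := by
    intro μ
    refine tendsto_integral_of_dominated_convergence
      (fun x => ‖pd h x μ‖ * (‖Λ.e μ‖ * B2)) ?_ ?_ ?_ ?_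
    · intro k
      exact ((hpdc μ).smul (continuous_const.mul (hsm k).1.continuous)).aestronglyMeasurable
    · exact (((hpdc μ).integrable_of_hasCompactSupport (hpds μ)).norm).mul_const _
    · intro k
      refine Eventually.of_forall fun x => ?_
      by_cases hx : x ∈ tsupport h
      · rw [norm_smul]
        exact mul_le_mul_of_nonneg_left ((norm_mul_le _ _).trans
          (mul_le_mul_of_nonneg_left (hbound k x hx) (norm_nonneg _))) (norm_nonneg _)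
      · rw [hpd0 μ x hx]; simp
    · filter_upwards [hlim] with x hx
      exact tendsto_const_nhds.smul (tendsto_const_nhds.mul hx)
  have hsum : Tendsto (fun k => ∑ μ, ∫ x, pd h x μ •
      (Λ.e μ * PF Λ c P (Fcon (Kk k) (Lk k) (gk k) Q0 Q1 x))) atTop
      (𝓝 (∑ μ, ∫ x, pd h x μ • (Λ.e μ * PF Λ c P (Fcon K L g Q0 Q1 x)))) :=
    tendsto_finset_sum _ fun μ _ => hlimI μ
  exact tendsto_nhds_unique hsum (by simp only [hz]; exact tendsto_const_nhds)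

end WC

end Pool.Agent.Helper83.CB
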